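import Mathlib
import Pool.Agent.MP_dce92b_pr.Final

open MeasureTheory ProbabilityTheory Filter Topology
open scoped NNReal ENNReal
open Pool.Agent.MP_dce92b_pr

namespace Pool.Agent.Results.MP_dce92b_pr.EigenvalueLimit

theorem result (Ω : Type*) [MeasurableSpace Ω] (P : Measure Ω) (B : Fin 3 → ℝ≥0 → Ω → ℝ)
    (hB : ∀ i, IsBrownianReal (B i) P) (hI : iIndepFun (fun i ω t => B i t ω) P) :
    (∀ s : ℝ≥0, AEMeasurable (fun ω => lam1 ((fun t => bm B t ω) '' Set.Iic s)) P) ∧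
    Tendsto (fun s : ℝ≥0 => ENNReal.ofReal ((Real.log s / s) ^ 2) *
        ∫⁻ ω, lam1 ((fun t => bm B t ω) '' Set.Iic s) ∂P) atTop
      (𝓝 (ENNReal.ofReal ((2 * Real.pi) ^ 4 / 9))) :=
  main_stmt Ω P B hB hI

end Pool.Agent.Results.MP_dce92b_pr.EigenvalueLimit
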